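import Pool.Agent.H37.TB3

/-!
# MP_8b37c6_an : upper bounds for the optimal exponent in the three-balls inequality

`Admissible n ρ r R α` says that `0 < α < 1` and `‖u‖_r ≤ ‖u‖_ρ ^ α ‖u‖_R ^ (1 - α)` for all
complex-valued harmonic functions `u` on the ball `B(0, R)` of `ℝⁿ` with `‖u‖_R < ∞`, where `‖u‖_s`
is the supremum of `|u|` over the open ball `B(0, s)`.
-/

open Metric Set InnerProductSpace Filter Topology Pool.Agent.H37.ThreeBalls

namespace Pool.Agent.Results.MP_8b37c6_an.UpperBounds

/-- `W s = (1 + s²) arctan s / s`. -/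
noncomputable def W (s : ℝ) : ℝ := (1 + s ^ 2) * Real.arctan s / s

lemma arctan_lt_self {s : ℝ} (hs : 0 < s) : Real.arctan s < s := by
  have h1 := Real.arctan_lt_pi_div_two s
  have h2 : 0 < Real.arctan s := Real.arctan_pos.2 hs
  have h3 := Real.lt_tan h2 h1
  rwa [Real.tan_arctan] at h3

lemma hasDerivAt_W {s : ℝ} (hs : 0 < s) :
    HasDerivAt W (((2 * s * Real.arctan s + (1 + s ^ 2) * (1 / (1 + s ^ 2))) * s -
      (1 + s ^ 2) * Real.arctan s * 1) / s ^ 2) s := by
  have h1 : HasDerivAt (fun s : ℝ => 1 + s ^ 2) (2 * s) s := by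
    simpa using (hasDerivAt_pow 2 s).const_add 1
  exact (h1.mul (Real.hasDerivAt_arctan s)).div (hasDerivAt_id s) hs.ne'

lemma strictMonoOn_W : StrictMonoOn W (Ioi 0) := by
  apply strictMonoOn_of_deriv_pos (convex_Ioi 0)
  · intro s hs
    exact (hasDerivAt_W hs).continuousAt.continuousWithinAt
  · intro s hs
    rw [interior_Ioi] at hs
    have hs0 : 0 < s := hs
    rw [(hasDerivAt_W hs0).deriv]
    have h1 : (1 + s ^ 2) * (1 / (1 + s ^ 2)) = 1 := by field_simp
    rw [h1]
    have h2 := arctan_lt_self hs0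
    have h3 : 0 < Real.arctan s := Real.arctan_pos.2 hs0
    apply div_pos _ (by positivity)
    nlinarith [mul_pos hs0 h3, mul_pos (mul_pos hs0 hs0) h3]

lemma W_pos {s : ℝ} (hs : 0 < s) : 0 < W s := by
  have h3 : 0 < Real.arctan s := Real.arctan_pos.2 hs
  unfold W
  positivity

lemma strictConcave_log_arctan_exp :
    StrictConcaveOn ℝ univ (fun t : ℝ => Real.log (Real.arctan (Real.exp t))) := by
  have hd : ∀ t : ℝ, HasDerivAt (fun t : ℝ => Real.log (Real.arctan (Real.exp t)))
      (1 / W (Real.exp t)) t := by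
    intro t
    have h3 : 0 < Real.arctan (Real.exp t) := Real.arctan_pos.2 (Real.exp_pos t)
    have h1 := ((Real.hasDerivAt_exp t).arctan).log h3.ne'
    refine h1.congr_deriv ?_
    unfold W
    have := Real.exp_pos t
    field_simp
  apply StrictAntiOn.strictConcaveOn_of_deriv convex_univ
  · exact (continuous_iff_continuousAt.2 fun t => (hd t).continuousAt).continuousOn
  · rw [interior_univ]
    intro t _ t' _ htt
    rw [(hd t).deriv, (hd t').deriv]
    exact one_div_lt_one_div_of_lt (W_pos (Real.exp_pos t))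
      (strictMonoOn_W (Real.exp_pos t) (Real.exp_pos t') (Real.exp_lt_exp.2 htt))

lemma ratio_lt {a b : ℝ} (ha : 0 < a) (hab : a < b) (hb : b < 1) :
    Real.log (4 / Real.pi * Real.arctan b) / Real.log (4 / Real.pi * Real.arctan a) <
      Real.log b / Real.log a := by
  have hpi := Real.pi_pos
  have hb0 : 0 < b := ha.trans hab
  have hla : Real.log a < 0 := Real.log_neg ha (hab.trans hb)
  have hlb : Real.log b < 0 := Real.log_neg hb0 hb
  have hlab : Real.log a < Real.log b := Real.log_lt_log ha hab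
  have hs := strictConcave_log_arctan_exp.slope_anti_adjacent (mem_univ _) (mem_univ (0:ℝ))
    hlab hlb
  simp only [Real.exp_log ha, Real.exp_log hb0, Real.exp_zero, Real.arctan_one] at hs
  have hata : 0 < Real.arctan a := Real.arctan_pos.2 ha
  have hatb : 0 < Real.arctan b := Real.arctan_pos.2 hb0
  have hG : ∀ c : ℝ, 0 < Real.arctan c → Real.log (4 / Real.pi * Real.arctan c) =
      Real.log (Real.arctan c) - Real.log (Real.pi / 4) := by
    intro c hc
    rw [← Real.log_div hc.ne' (by positivity)]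
    congr 1
    field_simp
  rw [hG b hatb, hG a hata]
  set A := Real.log (Real.arctan a) with hA
  set B := Real.log (Real.arctan b) with hB
  set C := Real.log (Real.pi / 4) with hC
  have hAC : A - C < 0 := by
    have h2 : Real.arctan a < Real.pi / 4 := by
      rw [← Real.arctan_one]; exact Real.arctan_strictMono (hab.trans hb)
    have := Real.log_lt_log hata h2
    linarith
  rw [← neg_div_neg_eq (B - C) (A - C), ← neg_div_neg_eq (Real.log b) (Real.log a),
    div_lt_div_iff₀ (by linarith) (by linarith)]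
  rw [div_lt_div_iff₀ (by linarith) (by linarith)] at hs
  nlinarith [hs]

/-- **Upper bounds for the optimal exponent.** Let `n ≥ 2` and `0 < ρ < r < R`. Every admissible
exponent `α` satisfies

* `α ≤ (R - r) / (R - ρ) * ((R + ρ) / (R + r)) ^ (n - 1)`, which tends to `0` exponentially fast as
  `n → ∞`, and
* `α ≤ log ((4/π) arctan (r/R)) / log ((4/π) arctan (ρ/R))`, which is strictly smaller than the
  Hadamard exponent `log (r/R) / log (ρ/R)`. -/
theorem result (n : ℕ) (hn : 2 ≤ n) (ρ r R : ℝ) (hρ : 0 < ρ) (hρr : ρ < r) (hrR : r < R) :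
    (∀ α : ℝ, Admissible n ρ r R α →
      α ≤ (R - r) / (R - ρ) * ((R + ρ) / (R + r)) ^ (n - 1) ∧
      α ≤ Real.log (4 / Real.pi * Real.arctan (r / R)) /
        Real.log (4 / Real.pi * Real.arctan (ρ / R))) ∧
    Real.log (4 / Real.pi * Real.arctan (r / R)) /
        Real.log (4 / Real.pi * Real.arctan (ρ / R)) < Real.log (r / R) / Real.log (ρ / R) := by
  have hR0 : 0 < R := by linarith
  constructor
  · obtain ⟨m, rfl⟩ : ∃ m, n = m + 2 := ⟨n - 2, by omega⟩
    intro α h
    exact ⟨harnack_bound hρ hρr hrR h, arctan_bound hρ hρr hrR h⟩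
  · exact ratio_lt (by positivity) (div_lt_div_of_pos_right hρr hR0) ((div_lt_one hR0).2 hrR)

end Pool.Agent.Results.MP_8b37c6_an.UpperBounds
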